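import Pool.Agent.H.MP_e277cf_an.B
import Pool.Agent.H.MP_5de19d_an.A

open Set Filter Topology MeasureTheory Metric Complex
open scoped ContDiff ENNReal Real ComplexConjugate NNReal Convolution

namespace Pool.Agent.H.MP_a2a261_an
open Pool.Agent.H.MP_e277cf_an Pool.Agent.H.MP_e277cf_an.Defs Pool.Agent.H.MP_084a52_an

lemma cover {y : ℂ} {r : ℝ} (hr : 0 < r) {F : ℂ → ℂ} (c : ContinuousOn F (closedBall y r))
    (h : ∀ w ∈ closedBall y r, ‖w - F w‖ ≤ r) : ∃ w ∈ closedBall y r, F w = y := by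
  let P : ℂ → ℂ := fun u => y + (r / max 1 ‖u‖ : ℝ) * u
  have p : ∀ u : ℂ, 0 < max 1 ‖u‖ := fun u => lt_max_of_lt_left one_pos
  have m : ∀ u, P u ∈ closedBall y r := fun u => by
    rw [mem_closedBall, dist_eq_norm, add_sub_cancel_left, norm_mul, norm_real,
      Real.norm_of_nonneg (div_pos hr (p u)).le, div_mul_eq_mul_div, div_le_iff₀ (p u)]
    gcongr
    exact le_max_right _ _
  have cP : Continuous P := continuous_const.add ((continuous_ofReal.comp
    (continuous_const.div (by fun_prop) fun u => (p u).ne')).mul continuous_id)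
  have b : ∀ u, ‖(P u - F (P u)) / r‖ ≤ 1 := fun u => by
    rw [norm_div, norm_real, Real.norm_of_nonneg hr.le, div_le_one hr]
    exact h _ (m u)
  obtain ⟨u, hu⟩ := Pool.Agent.H.MP_5de19d_an.brouwer (fun u => (P u - F (P u)) / r)
    ((cP.sub (c.comp_continuous cP m)).div_const _) b
  have u1 : ‖u‖ ≤ 1 := hu ▸ b u
  refine ⟨P u, m u, ?_⟩
  have r0 : (r : ℂ) ≠ 0 := ofReal_ne_zero.2 hr.ne'
  have e : P u = y + r * u := by simp [P, max_eq_left u1]
  rw [div_eq_iff r0] at hu
  linear_combination e - hu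

lemma det_le (A : ℂ →L[ℝ] ℂ) : 2 * |A.det| ≤ en A := by
  rw [det_eq, en, Complex.sq_norm, Complex.sq_norm, normSq_apply, normSq_apply]
  rcases abs_cases ((A 1).re * (A I).im - (A I).re * (A 1).im) with h | h <;> rw [h.1]
  · nlinarith [sq_nonneg ((A 1).re - (A I).im), sq_nonneg ((A I).re + (A 1).im)]
  · nlinarith [sq_nonneg ((A 1).re + (A I).im), sq_nonneg ((A I).re - (A 1).im)]

lemma jen {μ : Measure ℂ} {ρ : ℂ → ℝ} {a : ℂ → ℂ} (h0 : ∀ x, 0 ≤ ρ x) (i1 : Integrable ρ μ)
    (h1 : ∫ x, ρ x ∂μ ≤ 1) (i2 : Integrable (fun x => ρ x * ‖a x‖ ^ 2) μ) :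
    ‖∫ x, ρ x • a x ∂μ‖ ^ 2 ≤ ∫ x, ρ x * ‖a x‖ ^ 2 ∂μ := by
  set m := ‖∫ x, ρ x • a x ∂μ‖
  have k : 2 * m * m ≤ ∫ x, (ρ x * m ^ 2 + ρ x * ‖a x‖ ^ 2) ∂μ := by
    have : 2 * m * m = ‖∫ x, (2 * m) • ρ x • a x ∂μ‖ := by
      rw [integral_smul, norm_smul, Real.norm_of_nonneg (by positivity)]
    rw [this]
    refine norm_integral_le_of_norm_le ((i1.mul_const _).add i2) (.of_forall fun x => ?_)
    rw [norm_smul, norm_smul, Real.norm_of_nonneg (by positivity), Real.norm_of_nonneg (h0 x)]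
    nlinarith [mul_nonneg (h0 x) (sq_nonneg (m - ‖a x‖))]
  rw [integral_add (i1.mul_const _) i2, integral_mul_const] at k
  nlinarith [sq_nonneg m]

lemma moll {Ω L : Set ℂ} (ho : IsOpen Ω) (hf : volume Ω < ⊤) {h : ℂ → ℂ} {A : ℂ → ℂ →L[ℝ] ℂ}
    (hw : W12 Ω h A) (hL : MeasurableSet L) {δ r : ℝ} (d0 : 0 < δ)
    (hs : ∀ x ∈ L, closedBall x δ ⊆ Ω) (hr : ∀ x ∈ L, ∀ y ∈ ball x δ, dist (h y) (h x) ≤ r) :
    ∃ f : ℂ → ℂ, Continuous f ∧ (∀ x ∈ L, dist (f x) (h x) ≤ r) ∧
      2 * volume (f '' L) ≤ En Ω A := by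
  have mo := ho.measurableSet
  have : IsFiniteMeasure (volume.restrict Ω) := ⟨by simpa using hf⟩
  obtain ⟨w1, w2, w3⟩ := hw
  set w := Ω.indicator h
  have iw : Integrable w := (integrable_indicator_iff mo).2 (w1.integrable one_le_two)
  let b : ContDiffBump (0 : ℂ) := ⟨δ / 2, δ, half_pos d0, half_lt_self d0⟩
  have s1 : ContDiff ℝ ∞ (b.normed volume) := b.contDiff_normed
  have s2 : HasCompactSupport (b.normed volume) := b.hasCompactSupport_normed
  have s3 : tsupport (b.normed volume) = closedBall 0 δ := b.tsupport_normed_eq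
  have s4 : ∀ x, 0 ≤ b.normed volume x := b.nonneg_normed
  have s5 : ∫ x, b.normed volume x = 1 := b.integral_normed
  have s6 : ∀ x ∈ L, dist ((b.normed volume ⋆[ContinuousLinearMap.lsmul ℝ ℝ, volume] w) x) (h x) ≤ r :=
    fun x hx => by
      have xm := hs x hx (mem_closedBall_self d0.le)
      have := b.dist_normed_convolution_le (x₀ := x) (ε := r) iw.1 fun y hy => by
        simp only [w, indicator_of_mem xm, indicator_of_mem (hs x hx (ball_subset_closedBall hy))]
        exact hr x hx y hy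
      rwa [show w x = h x from indicator_of_mem xm _] at this
  generalize b.normed volume = ψ at *
  have d := fun z => s2.hasFDerivAt_convolution_right (ContinuousLinearMap.lsmul ℝ ℝ).flip
    iw.locallyIntegrable (s1.of_le (by simp)) z
  simp only [convolution_flip] at d
  set f := ψ ⋆[ContinuousLinearMap.lsmul ℝ ℝ, volume] w
  have df : Differentiable ℝ f := fun z => (d z).differentiableAt
  refine ⟨f, df.continuous, s6, ?_⟩
  have e : ∀ z ∈ L, ∀ v, fderiv ℝ f z v = ∫ y in Ω, ψ (z - y) • A y v := fun z hz v => by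
    have t : tsupport (fun y => ψ (z - y)) ⊆ Ω := fun y hy => hs z hz (by
      have := tsupport_comp_subset_preimage ψ (f := fun y => z - y) (by fun_prop) hy
      rw [s3] at this
      simpa [dist_eq_norm, norm_sub_rev] using this)
    rw [← neg_neg (∫ y in Ω, ψ (z - y) • A y v), ← w3 (fun y => ψ (z - y)) (by fun_prop)
      (s2.comp_homeomorph (Homeomorph.subLeft z)) t, (d z).fderiv,
      convolution_precompR_apply _ iw.locallyIntegrable (s2.fderiv ℝ)
      (s1.continuous_fderiv (by simp)), convolution_def, ← integral_neg, ← integral_indicator mo]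
    congr 1; ext y
    have k : fderiv ℝ (fun y => ψ (z - y)) y v = -fderiv ℝ ψ (z - y) v := by
      rw [show (fun y => ψ (z - y)) = ψ ∘ HSub.hSub z from rfl,
        (((s1.differentiable (by simp)) (z - y)).hasFDerivAt.comp y ((hasFDerivAt_id y).const_sub z)).fderiv]
      simp
    by_cases hy : y ∈ Ω
    · simp [w, hy, k]
    · simp [w, hy]
  have i2 : ∀ v, Integrable (fun y => ‖A y v‖ ^ 2) (volume.restrict Ω) := fun v =>
    (memLp_two_iff_integrable_sq_norm ((ContinuousLinearMap.apply ℝ ℂ v).comp_memLp' w2).1).1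
      ((ContinuousLinearMap.apply ℝ ℂ v).comp_memLp' w2)
  have iN : IntegrableOn (fun y => en (A y)) Ω := (i2 1).add (i2 I)
  set N := Ω.indicator fun y => en (A y)
  have iN' : Integrable N := (integrable_indicator_iff mo).2 iN
  have iψ : Integrable ψ := s1.continuous.integrable_of_hasCompactSupport s2
  obtain ⟨C, hC⟩ := s1.continuous.bounded_above_of_compact_support s2
  have i3 : ∀ z v, Integrable (fun y => ψ (z - y) * ‖A y v‖ ^ 2) (volume.restrict Ω) := fun z v =>
    (i2 v).bdd_mul (c := C) (by fun_prop) (.of_forall fun y => hC _)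
  set c := N ⋆[ContinuousLinearMap.mul ℝ ℝ, volume] ψ
  have ic : Integrable c := iN'.integrable_convolution _ iψ
  have k : ∀ z ∈ L, en (fderiv ℝ f z) ≤ c z := fun z hz => by
    have j : ∀ v, ‖fderiv ℝ f z v‖ ^ 2 ≤ ∫ y in Ω, ψ (z - y) * ‖A y v‖ ^ 2 := fun v => by
      rw [e z hz]
      refine jen (fun y => s4 _) (iψ.comp_sub_left z).integrableOn ?_ (i3 z v)
      rw [← s5, ← integral_sub_left_eq_self ψ volume z]
      exact setIntegral_le_integral (iψ.comp_sub_left z) (.of_forall fun y => s4 _)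
    refine (add_le_add (j 1) (j I)).trans_eq ?_
    rw [← integral_add (i3 z 1) (i3 z I), ← integral_indicator mo]
    simp only [c, convolution_def]
    congr 1; ext y
    by_cases hy : y ∈ Ω
    · simp [N, hy, en]; ring
    · simp [N, hy]
  have c0 : ∀ z, 0 ≤ c z := fun z => integral_nonneg fun y =>
    mul_nonneg (indicator_nonneg (fun _ _ => en0 _) _) (s4 _)
  calc 2 * volume (f '' L) ≤ 2 * ∫⁻ x in L, ENNReal.ofReal |(fderiv ℝ f x).det| := by
        gcongr
        exact addHaar_image_le_lintegral_abs_det_fderiv _ hL fun x _ =>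
          (df x).hasFDerivAt.hasFDerivWithinAt
    _ ≤ ∫⁻ x in L, ENNReal.ofReal (c x) := by
        rw [← lintegral_const_mul' _ _ (by simp)]
        refine setLIntegral_mono' hL fun x hx => ?_
        rw [← ENNReal.ofReal_ofNat, ← ENNReal.ofReal_mul (by simp)]
        exact ENNReal.ofReal_le_ofReal ((det_le _).trans (k x hx))
    _ ≤ ∫⁻ x, ENNReal.ofReal (c x) := setLIntegral_le_lintegral _ _
    _ = En Ω A := by
        rw [← ofReal_integral_eq_lintegral_ofReal ic (.of_forall c0), integral_convolution _ iN' iψ, s5,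
          integral_indicator mo]
        simp only [ContinuousLinearMap.mul_apply', mul_one]
        exact ofReal_integral_eq_lintegral_ofReal iN (.of_forall fun _ => en0 _)

theorem lower {Ω Ω' : Set ℂ} (ho : IsOpen Ω) (ho' : IsOpen Ω') (hf : volume Ω < ⊤) {h : ℂ → ℂ}
    {A : ℂ → ℂ →L[ℝ] ℂ} (hh : Hom Ω Ω' h) (hw : W12 Ω h A) : 2 * volume Ω' ≤ En Ω A := by
  obtain ⟨g, m1, m2, hi, c1, c2⟩ := hh
  rw [ho'.measure_eq_iSup_isCompact]
  simp only [ENNReal.mul_iSup]
  refine iSup_le fun K => iSup_le fun hK => iSup_le fun cK => ?_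
  obtain ⟨r, r0, hr⟩ := cK.exists_cthickening_subset_open ho' hK
  have cL : IsCompact (g '' cthickening r K) := (cK.cthickening).image_of_continuousOn (c2.mono hr)
  have sL : g '' cthickening r K ⊆ Ω := by rintro _ ⟨w, hw, rfl⟩; exact m2 (hr hw)
  obtain ⟨η, η0, hη⟩ := cL.exists_cthickening_subset_open ho sL
  obtain ⟨δ, d0, hδ⟩ := Metric.uniformContinuousOn_iff_le.1
    (cL.cthickening.uniformContinuousOn_of_continuous (c1.mono hη)) r r0
  have sb : ∀ x ∈ g '' cthickening r K, closedBall x (min δ η) ⊆ cthickening η (g '' cthickening r K) :=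
    fun x hx => (closedBall_subset_closedBall (min_le_right _ _)).trans (closedBall_subset_cthickening hx _)
  obtain ⟨f, cf, h1, h2⟩ := moll ho hf hw cL.measurableSet (r := r) (lt_min d0 η0)
    (fun x hx => (sb x hx).trans hη) fun x hx y hy => hδ y (sb x hx (ball_subset_closedBall hy)) x
      (self_subset_cthickening _ hx) ((mem_ball.1 hy).le.trans (min_le_left _ _))
  refine le_trans ?_ h2
  gcongr
  intro y hy
  have s := closedBall_subset_cthickening hy r
  obtain ⟨w, hw, e⟩ := cover (y := y) r0 (F := f ∘ g) (cf.comp_continuousOn (c2.mono (s.trans hr)))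
    fun w hw => by
      have := h1 _ ⟨w, s hw, rfl⟩
      rwa [hi.2 (hr (s hw)), dist_comm, dist_eq_norm] at this
  exact ⟨g w, ⟨w, s hw, rfl⟩, e⟩

theorem conf_min {Ω Ω' : Set ℂ} (ho : IsOpen Ω) (ho' : IsOpen Ω') (hb : Bornology.IsBounded Ω)
    (hb' : Bornology.IsBounded Ω') {h : ℂ → ℂ} (hh : Hom Ω Ω' h) (hd : DifferentiableOn ℂ h Ω) :
    W12 Ω h (fderiv ℝ h) ∧ En Ω (fderiv ℝ h) = EH Ω Ω' := by
  have mo := ho.measurableSet
  have hf : volume Ω < ⊤ := hb.measure_lt_top
  have : IsFiniteMeasure (volume.restrict Ω) := ⟨by simpa using hf⟩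
  have cd : ContDiffOn ℝ 1 h Ω := (hd.contDiffOn ho).restrict_scalars ℝ
  have c := cd.continuousOn_fderiv_of_isOpen ho le_rfl
  have e1 : ∀ x ∈ Ω, en (fderiv ℝ h x) = 2 * |(fderiv ℝ h x).det| := fun x hx => by
    have := (hd.differentiableAt (ho.mem_nhds hx)).hasDerivAt.hasFDerivAt.restrictScalars ℝ
    rw [this.fderiv, det_eq, en, abs_of_nonneg]
    · simp [Complex.sq_norm, normSq_apply]; ring
    · simp; nlinarith [sq_nonneg (deriv h x).re, sq_nonneg (deriv h x).im]
  have e2 : En Ω (fderiv ℝ h) = 2 * volume Ω' := by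
    obtain ⟨g, m1, m2, hi, -⟩ := hh
    rw [← (hi.bijOn m1 m2).image_eq, ← lintegral_abs_det_fderiv_eq_addHaar_image volume mo
      (fun x hx => ((cd.differentiableOn one_ne_zero).differentiableAt
        (ho.mem_nhds hx)).hasFDerivAt.hasFDerivWithinAt) hi.1.injOn,
      ← lintegral_const_mul' _ _ (by simp)]
    refine setLIntegral_congr_fun mo fun x hx => ?_
    rw [← ENNReal.ofReal_ofNat, ← ENNReal.ofReal_mul (by simp), ← e1 x hx, en]
  have hi : IntegrableOn (fun z => en (fderiv ℝ h z)) Ω := by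
    refine ⟨(en_c.comp_continuousOn c).aestronglyMeasurable mo, ?_⟩
    rw [hasFiniteIntegral_iff_ofReal (.of_forall fun _ => en0 _)]
    exact e2.trans_lt (ENNReal.mul_lt_top (by simp) hb'.measure_lt_top)
  have w : W12 Ω h (fderiv ℝ h) := by
    refine ⟨?_, ?_, fun φ h1 h2 h3 => wk ho cd h1 h2 h3⟩
    · obtain ⟨g, m, -⟩ := hh
      obtain ⟨R, hR⟩ := hb'.exists_norm_le
      exact MemLp.of_bound (cd.continuousOn.aestronglyMeasurable mo) R
        ((ae_restrict_mem mo).mono fun z hz => hR _ (m hz))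
    · rw [memLp_two_iff_integrable_sq_norm (c.aestronglyMeasurable mo)]
      exact (hi.const_mul 2).mono' ((c.norm.pow 2).aestronglyMeasurable mo)
        (.of_forall fun z => by rw [Real.norm_eq_abs, abs_of_nonneg (by positivity)]; exact nrm_le _)
  refine ⟨w, le_antisymm ?_ (iInf_le_of_le h (iInf_le_of_le _ (iInf_le_of_le ⟨hh, w⟩ le_rfl)))⟩
  exact le_iInf fun f => le_iInf fun A => le_iInf fun k => e2.trans_le (lower ho ho' hf k.1 k.2)

end Pool.Agent.H.MP_a2a261_an
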