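import Pool.Agent.H.MP_e277cf_an.Defs

namespace Pool.Agent.H.MP_a2a261_an.Defs

/-- no component of the complement is a single point -/
def NoPt (Ω : Set ℂ) : Prop := ∀ z ∉ Ω, (connectedComponentIn Ωᶜ z).Nontrivial

/-- the horizontal compression -/
def flat (ε : ℝ) (z : ℂ) : ℂ := ⟨ε * z.re, z.im⟩

end Pool.Agent.H.MP_a2a261_an.Defs
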