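import Pool.Agent.H.MP_a2a261_an.A
import Pool.Agent.H.MP_a2a261_an.Defs
import Pool.Agent.Lib.helper9.RMT

open Set Filter Topology MeasureTheory Metric Complex
open scoped ContDiff ENNReal Real ComplexConjugate NNReal

namespace Pool.Agent.H.MP_a2a261_an
open Pool.Agent.H.MP_e277cf_an.Defs Defs Pool.Agent.Lib.helper9.RMT

def Sg (b : ℝ) : Set ℂ := {z | z.im = 0 ∧ |z.re| ≤ b}

lemma Sg_eq (b : ℝ) : Sg b = (↑) '' Icc (-b) b := by
  ext z
  constructor
  · rintro ⟨h1, h2⟩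
    exact ⟨z.re, abs_le.1 h2, Complex.ext (by simp) (by simp [h1])⟩
  · rintro ⟨x, hx, rfl⟩
    exact ⟨by simp, by simpa using abs_le.2 hx⟩

lemma Sg_cpt (b : ℝ) : IsCompact (Sg b) := Sg_eq b ▸ isCompact_Icc.image continuous_ofReal

lemma Sg_conn {b : ℝ} (hb : 0 ≤ b) : IsConnected (Sg b) :=
  Sg_eq b ▸ (isConnected_Icc (by linarith)).image _ continuous_ofReal.continuousOn

lemma phi0 {U : Set ℂ} {ψ φ : ℂ → ℂ} (c : Conf U 0 ψ φ) (h0 : 0 ∈ U) : φ 0 = 0 := by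
  have := c.l 0 h0
  rwa [c.z] at this

lemma schw {U : Set ℂ} {ψ φ g : ℂ → ℂ} (c : Conf U 0 ψ φ) (h0 : 0 ∈ U)
    (d : DifferentiableOn ℂ g U) (m : MapsTo g U (ball 0 1)) (g0 : g 0 = 0) {z : ℂ} (hz : z ∈ U) :
    ‖g z‖ ≤ ‖ψ z‖ := by
  have := norm_le_norm_of_mapsTo_ball (f := g ∘ φ) (d.comp c.dφ c.mφ)
    ((m.comp c.mφ).mono_right ball_subset_closedBall) (by simp [phi0 c h0, g0])
    (mem_ball_zero_iff.1 (c.mψ hz))
  simpa [c.l z hz] using this

lemma uniq {U : Set ℂ} {ψ φ g : ℂ → ℂ} (c : Conf U 0 ψ φ) (h0 : 0 ∈ U)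
    (d : DifferentiableOn ℂ g U) (m : MapsTo g U (ball 0 1)) (g0 : g 0 = 0) {a : ℂ} (ha : a ∈ U)
    (a0 : ψ a ≠ 0) (e : g a = ψ a) : EqOn g ψ U := fun z hz => by
  have k0 : (g ∘ φ) 0 = 0 := by simp [phi0 c h0, g0]
  have k1 : dslope (g ∘ φ) 0 (ψ a) = 1 := by
    rw [dslope_of_ne _ a0, slope_def_field, k0]
    simp [c.l a ha, e, a0]
  have := affine_of_mapsTo_ball_of_norm_dslope_eq_div (f := g ∘ φ) (R₂ := 1) (d.comp c.dφ c.mφ)
    (by rw [k0]; exact (m.comp c.mφ).mono_right ball_subset_closedBall) (c.mψ ha) (by simp [k1])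
    (c.mψ hz)
  simpa [k0, k1, c.l z hz, phi0 c h0, g0] using this

lemma rot {U : Set ℂ} {ψ φ : ℂ → ℂ} (c : Conf U 0 ψ φ) {u : ℂ} (hu : ‖u‖ = 1) :
    Conf U 0 (fun z => u * ψ z) (fun w => φ (w / u)) := by
  have u0 : u ≠ 0 := by rintro rfl; simp at hu
  have m : MapsTo (fun w => w / u) (ball (0 : ℂ) 1) (ball 0 1) := fun w hw => by simpa [hu] using hw
  refine ⟨c.dψ.const_mul u, c.dφ.comp (by fun_prop) m, fun z hz => by simpa [hu] using c.mψ hz,
    c.mφ.comp m, fun z hz => by simp [u0, c.l z hz], fun w hw => ?_, by simp [c.z]⟩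
  rw [c.r _ (m hw)]
  field_simp

lemma seg {U : Set ℂ} (ho : IsOpen U) (s1 : ∀ z ∈ U, conj z ∈ U) (s2 : ∀ z ∈ U, -z ∈ U) {a : ℝ}
    (a0 : 0 < a) (sa : Sg a ⊆ U) {ψ φ : ℂ → ℂ} (c : Conf U 0 ψ φ) :
    ∃ h, Hom (ball 0 1 \ Sg ‖ψ a‖) (U \ Sg a) h ∧ DifferentiableOn ℂ h (ball 0 1) := by
  have r : ∀ x ∈ Icc (-a) a, (x : ℂ) ∈ U := fun x hx => sa (Sg_eq a ▸ ⟨x, hx, rfl⟩)
  have h0 : (0 : ℂ) ∈ U := by simpa using r 0 ⟨by linarith, a0.le⟩
  have ha : (a : ℂ) ∈ U := r a ⟨by linarith, le_rfl⟩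
  have n0 : ψ a ≠ 0 := fun e => a0.ne' (by simpa [e, phi0 c h0] using (c.l a ha).symm)
  have t0 : 0 < ‖ψ a‖ := norm_pos_iff.2 n0
  have c' := rot c (u := ‖ψ a‖ / ψ a) (by simp [n0])
  have e : (fun z => ‖ψ a‖ / ψ a * ψ z) a = ‖ψ a‖ := by simp [n0]
  generalize ‖ψ a‖ = t at *
  generalize (fun z => t / ψ a * ψ z) = p at *
  generalize (fun w => φ (w / (t / ψ a))) = q at *
  have inj : InjOn p U := fun x hx y hy k => by rw [← c'.l x hx, k, c'.l y hy]
  have cj := uniq (g := fun z => conj (p (conj z))) c' h0 (fun z hz =>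
    ((c'.dψ.differentiableAt (ho.mem_nhds (s1 z hz))).conj_conj.congr_of_eventuallyEq
      (.of_forall fun _ => rfl) |> fun k => by simpa using! k.differentiableWithinAt))
    (fun z hz => by simpa using c'.mψ (s1 z hz)) (by simp [c'.z]) ha
    (by simp [e, t0.ne']) (by simp [e])
  have re : ∀ x ∈ Icc (-a) a, p x = (p x).re := fun x hx => by
    have := cj (r x hx)
    simp only [conj_ofReal] at this
    exact (conj_eq_iff_re.1 this).symm
  have ng : ∀ z ∈ U, ‖p (-z)‖ ≤ ‖p z‖ := fun z hz => schw (g := fun z => p (-z)) c' h0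
    (c'.dψ.comp (by fun_prop) s2) (fun z hz => c'.mψ (s2 z hz)) (by simp [c'.z]) hz
  have e2 : (p (-a : ℝ)).re = -t := by
    have k1 := ng a ha
    have k2 := ng _ (s2 a ha)
    have k3 := re (-a) ⟨le_rfl, by linarith⟩
    rw [neg_neg] at k2
    have k4 : |(p (-a : ℝ)).re| = t := by
      rw [← Real.norm_eq_abs, ← norm_real, ← k3, ofReal_neg, le_antisymm k1 k2, e, norm_real,
        Real.norm_of_nonneg t0.le]
    refine ((abs_eq t0.le).1 k4).resolve_left fun k => ?_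
    have := inj (r (-a) ⟨le_rfl, by linarith⟩) ha (by rw [k3, k, e])
    linarith [ofReal_injective this]
  have e1 : (p a).re = t := by simp [e]
  have cc : ContinuousOn (fun x : ℝ => (p x).re) (Icc (-a) a) := continuous_re.comp_continuousOn
    (c'.dψ.continuousOn.comp continuous_ofReal.continuousOn r)
  have mono := cc.strictMonoOn_of_injOn_Icc (by linarith) (by simp only [e1, e2]; linarith)
    fun x hx y hy k => ofReal_injective (inj (r x hx) (r y hy) (by rw [re x hx, re y hy, k]))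
  have key : ∀ z ∈ U, p z ∈ Sg t ↔ z ∈ Sg a := fun z hz => by
    rw [Sg_eq, Sg_eq]
    constructor
    · rintro ⟨y, hy, k⟩
      obtain ⟨x, hx, j⟩ := intermediate_value_Icc (by linarith) cc (by simpa only [e1, e2] using hy)
      exact ⟨x, hx, inj (r x hx) hz (by rw [re x hx, ← k]; simp only at j; rw [j])⟩
    · rintro ⟨x, hx, rfl⟩
      exact ⟨(p x).re, ⟨e2 ▸ mono.monotoneOn (left_mem_Icc.2 (by linarith)) hx hx.1,
        e1 ▸ mono.monotoneOn hx (right_mem_Icc.2 (by linarith)) hx.2⟩, (re x hx).symm⟩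
  refine ⟨q, ⟨p, fun w hw => ⟨c'.mφ hw.1, fun k => hw.2 ?_⟩, fun z hz => ⟨c'.mψ hz.1,
    fun k => hz.2 ((key z hz.1).1 k)⟩, ⟨fun w hw => c'.r w hw.1, fun z hz => c'.l z hz.1⟩,
    c'.dφ.continuousOn.mono sdiff_subset, c'.dψ.continuousOn.mono sdiff_subset⟩, c'.dφ⟩
  rw [← c'.r w hw.1]
  exact (key _ (c'.mφ hw.1)).2 k

lemma half {G : Set ℂ} (ho : IsOpen G) (h0 : 0 ∈ G) (st : StarConvex ℝ 0 G) (l : ℂ →L[ℝ] ℝ) :
    IsPreconnected (G ∩ {z | 0 < l z}) := by
  obtain ⟨r, r0, hr⟩ := Metric.isOpen_iff.1 ho 0 h0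
  by_cases n : (G ∩ {z | 0 < l z}).Nonempty
  swap
  · rw [not_nonempty_iff_eq_empty.1 n]; exact isPreconnected_empty
  have sm : ∀ z ∈ G ∩ {z | 0 < l z}, ∀ t ∈ Ioc (0 : ℝ) 1, t • z ∈ G ∩ {z | 0 < l z} :=
    fun z hz t ht => ⟨st.smul_mem hz.1 ht.1.le ht.2, by
      rw [mem_ofPred_eq, map_smul]; exact mul_pos ht.1 hz.2⟩
  have ex : ∀ z : ℂ, ∃ t ∈ Ioc (0 : ℝ) 1, t • z ∈ ball (0 : ℂ) r := fun z => by
    have : Tendsto (fun t : ℝ => t • z) (𝓝[>] 0) (𝓝 0) := by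
      have : Continuous fun t : ℝ => t • z := by fun_prop
      simpa only [zero_smul] using (this.tendsto 0).mono_left nhdsWithin_le_nhds
    exact ((this.eventually (ball_mem_nhds _ r0)).and (Ioc_mem_nhdsGT one_pos)).exists.imp
      fun t h => h.symm
  obtain ⟨w, hw⟩ := n
  obtain ⟨s, hs, hs'⟩ := ex w
  refine isPreconnected_of_forall (s • w) fun z hz => ?_
  obtain ⟨t, ht, ht'⟩ := ex z
  refine ⟨(ball 0 r ∩ {z | 0 < l z}) ∪ (fun t : ℝ => t • z) '' Ioc 0 1, union_subset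
    (inter_subset_inter_left _ hr) (by rintro _ ⟨u, hu, rfl⟩; exact sm z hz u hu),
    .inl ⟨hs', (sm w hw s hs).2⟩, .inr ⟨1, ⟨one_pos, le_rfl⟩, one_smul _ _⟩, ?_⟩
  exact IsPreconnected.union (t • z) ⟨ht', (sm z hz t ht).2⟩ ⟨t, ht, rfl⟩
    ((convex_ball _ _).inter (convex_halfSpace_gt l.toLinearMap.isLinear 0)).isPreconnected
    (isPreconnected_Ioc.image _ (by fun_prop))

lemma slit_conn {G : Set ℂ} (ho : IsOpen G) (h0 : 0 ∈ G) (st : StarConvex ℝ 0 G) {b c : ℝ}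
    (hc : (c : ℂ) ∈ G \ Sg b) : IsConnected (G \ Sg b) := by
  have k : ∀ e : ℝ, e ≠ 0 → IsPreconnected ((G \ Sg b) ∩ {z | 0 ≤ e * z.im}) := fun e he => by
    refine (half ho h0 st (e • imCLM)).subset_closure (fun z hz => ⟨⟨hz.1, fun j => ?_⟩, ?_⟩)
      fun z hz => ?_
    · simpa [j.1] using hz.2
    · simpa using hz.2.le
    · have : Tendsto (fun t : ℝ => z + (t * e : ℝ) * I) (𝓝[>] 0) (𝓝 z) := by
        have : Continuous fun t : ℝ => z + (t * e : ℝ) * I := by fun_prop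
        simpa using (this.tendsto 0).mono_left nhdsWithin_le_nhds
      refine mem_closure_of_tendsto this ?_
      filter_upwards [this.eventually (ho.mem_nhds hz.1.1), self_mem_nhdsWithin] with t h1 h2
      refine ⟨h1, ?_⟩
      have h3 : 0 ≤ e * z.im := hz.2
      have h4 := mul_pos (mem_Ioi.1 h2) (mul_self_pos.2 he)
      simp
      nlinarith
  refine ⟨⟨c, hc⟩, ?_⟩
  convert IsPreconnected.union (c : ℂ) (mem_inter hc (by simp)) (mem_inter hc (by simp))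
    (k 1 one_ne_zero) (k (-1) (by simp))
  ext z
  rcases le_total 0 z.im with h | h <;> simp +contextual [h]

lemma ray {G : Set ℂ} (st : StarConvex ℝ 0 G) {z : ℂ} (hz : z ∉ G) {t : ℝ} (ht : 1 ≤ t) :
    t • z ∉ G := fun k => hz (by
  have := st.smul_mem k (t := t⁻¹) (by positivity) (inv_le_one_of_one_le₀ ht)
  rwa [smul_smul, inv_mul_cancel₀ (by positivity), one_smul] at this)

lemma out {G : Set ℂ} (h0 : 0 ∈ G) (st : StarConvex ℝ 0 G) :
    IsConnected ((((↑) : ℂ → OnePoint ℂ) '' G)ᶜ) := by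
  refine ⟨⟨OnePoint.infty, OnePoint.infty_notMem_image_coe⟩,
    isPreconnected_of_forall OnePoint.infty fun x hx => ?_⟩
  induction x with
  | infty => exact ⟨{OnePoint.infty}, by simp, rfl, rfl, isPreconnected_singleton⟩
  | coe z =>
    have hz : z ∉ G := fun k => hx ⟨z, k, rfl⟩
    have z0 : z ≠ 0 := fun k => hz (k ▸ h0)
    refine ⟨insert OnePoint.infty ((fun t : ℝ => ((t • z : ℂ) : OnePoint ℂ)) '' Ici 1), ?_, .inl rfl,
      .inr ⟨1, self_mem_Ici, by simp⟩, (isPreconnected_Ici.image _ (OnePoint.continuous_coe.comp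
        (by fun_prop)).continuousOn).subset_closure (subset_insert _ _)
        (insert_subset ?_ subset_closure)⟩
    · rintro _ (rfl | ⟨t, ht, rfl⟩)
      · exact OnePoint.infty_notMem_image_coe
      · rintro ⟨w, hw, e⟩
        exact ray st hz ht (OnePoint.coe_injective e ▸ hw)
    · refine mem_closure_of_tendsto (b := atTop) (f := fun t : ℝ => ((t • z : ℂ) : OnePoint ℂ))
        (OnePoint.tendsto_coe_infty.comp ?_) ?_
      · rw [coclosedCompact_eq_cocompact, ← cobounded_eq_cocompact, ← tendsto_norm_atTop_iff_cobounded]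
        simp only [norm_smul]
        exact tendsto_norm_atTop_atTop.atTop_mul_const (norm_pos_iff.2 z0)
      · filter_upwards [eventually_ge_atTop 1] with t ht using ⟨t, ht, rfl⟩

lemma kc {G : Set ℂ} (ho : IsOpen G) (h0 : 0 ∈ G) (st : StarConvex ℝ 0 G) {b c : ℝ} (b0 : 0 < b)
    (sb : Sg b ⊆ G) (hc : (c : ℂ) ∈ G \ Sg b) : KConn 2 (G \ Sg b) ∧ NoPt (G \ Sg b) := by
  refine ⟨⟨ho.sdiff (Sg_cpt b).isClosed, slit_conn ho h0 st hc, ?_⟩, fun z hz => ?_⟩
  · let V : Fin 2 → Set (OnePoint ℂ) := ![(↑) '' Sg b, (((↑) : ℂ → OnePoint ℂ) '' G)ᶜ]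
    have v1 : ∀ i, IsClosed (V i) := fun i => by
      fin_cases i
      exacts [((Sg_cpt b).image OnePoint.continuous_coe).isClosed,
        (OnePoint.isOpen_image_coe.2 ho).isClosed_compl]
    have v2 : ∀ i, IsConnected (V i) := fun i => by
      fin_cases i
      exacts [(Sg_conn b0.le).image _ OnePoint.continuous_coe.continuousOn, out h0 st]
    have v3 : ∀ i, V i ⊆ (((↑) : ℂ → OnePoint ℂ) '' (G \ Sg b))ᶜ := fun i => by
      rintro _ hx ⟨z, hz, rfl⟩
      fin_cases i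
      · obtain ⟨w, hw, e⟩ := hx
        exact hz.2 (OnePoint.coe_injective e ▸ hw)
      · exact hx ⟨z, hz.1, rfl⟩
    have v4 : Pairwise (Function.onFun Disjoint V) := by
      have a : Disjoint (V 0) (V 1) := disjoint_compl_right_iff_subset.2 (image_mono sb)
      intro i j h
      fin_cases i <;> fin_cases j
      exacts [(h rfl).elim, a, a.symm, (h rfl).elim]
    let U : Fin 2 → Set ↥((((↑) : ℂ → OnePoint ℂ) '' (G \ Sg b))ᶜ) := fun i => Subtype.val ⁻¹' V i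
    have u1 : ⋃ i, U i = univ := by
      rw [iUnion_eq_univ_iff]
      rintro ⟨x, hx⟩
      by_cases k : x ∈ V 1
      · exact ⟨1, k⟩
      · obtain ⟨z, hz, rfl⟩ := not_not.1 k
        exact ⟨0, z, not_not.1 fun j => hx ⟨z, ⟨hz, j⟩, rfl⟩, rfl⟩
    have u2 : Pairwise (Function.onFun Disjoint U) := fun i j h => (v4 h).preimage _
    have u3 : ∀ i, IsClosed (U i) := fun i => (v1 i).preimage continuous_subtype_val
    have u4 : ∀ i, IsClopen (U i) := fun i => ⟨u3 i, by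
      rw [← isClosed_compl_iff]
      convert isClosed_iUnion_of_finite fun j : {j // j ≠ i} => u3 j
      ext x
      obtain ⟨j, hj⟩ := iUnion_eq_univ_iff.1 u1 x
      simp only [mem_compl_iff, mem_iUnion]
      exact ⟨fun h => ⟨⟨j, fun e => h (e ▸ hj)⟩, hj⟩, fun ⟨k, hk⟩ h => disjoint_left.1 (u2 k.2) hk h⟩⟩
    have u5 : ∀ i, IsConnected (U i) := fun i => by
      obtain ⟨x, hx⟩ := (v2 i).nonempty
      refine ⟨⟨⟨x, v3 i hx⟩, hx⟩, ?_⟩
      rw [← IsInducing.subtypeVal.isPreconnected_image, image_preimage_eq_of_subset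
        (by rw [Subtype.range_coe]; exact v3 i)]
      exact (v2 i).isPreconnected
    rw [Nat.card_congr (ConnectedComponents.equivOfIsClopenOfIsConnected u4 u2 u1 u5)]
    simp
  · by_cases k : z ∈ G
    · have hs : z ∈ Sg b := not_not.1 fun j => hz ⟨k, j⟩
      refine Set.Nontrivial.mono (s := Sg b) ⟨0, by simp [Sg, b0.le], b, by simp [Sg, abs_of_pos b0], ?_⟩
        ((Sg_conn b0.le).isPreconnected.subset_connectedComponentIn hs fun w hw j => j.2 hw)
      exact_mod_cast b0.ne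
    · have z0 : z ≠ 0 := fun j => k (j ▸ h0)
      refine Set.Nontrivial.mono (s := (fun t : ℝ => t • z) '' Ici 1)
        ⟨_, ⟨1, self_mem_Ici, rfl⟩, _, ⟨2, by simp, rfl⟩, fun j => ?_⟩
        ((isPreconnected_Ici.image (fun t : ℝ => t • z) (by fun_prop)
        ).subset_connectedComponentIn (x := z) ⟨1, self_mem_Ici, one_smul _ _⟩ ?_)
      · simpa using smul_left_injective ℝ z0 j
      · rintro _ ⟨t, ht, rfl⟩ j
        exact ray st k ht j.1

end Pool.Agent.H.MP_a2a261_an
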