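import Pool.Agent.H.MP_a2a261_an.B

open Set Filter Topology MeasureTheory Metric Complex
open scoped ContDiff ENNReal Real ComplexConjugate NNReal

namespace Pool.Agent.H.MP_a2a261_an
open Pool.Agent.H.MP_e277cf_an.Defs Defs Pool.Agent.Lib.helper9.RMT

def EE : Set ℝ := {v | v = 0 ∨ ∃ n : ℕ, (4 : ℝ) ^ n ≤ -v ∧ -v ≤ 2 * 4 ^ n}
noncomputable def gm (v : ℝ) : ℝ := min 3 (infDist v EE / 2)
noncomputable def Wd (y : ℝ) : ℝ := Real.exp (gm (Real.log y))
def G (s : ℝ) : Set ℂ := {z | |z.im| < s ∧ |z.re| < Wd (z.im / s)}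

lemma gm_mem {v : ℝ} (h : v ∈ EE) : gm v = 0 := by simp [gm, infDist_zero_of_mem h]
lemma gm0 (v : ℝ) : 0 ≤ gm v := le_min (by norm_num) (half_pos' v)
  where half_pos' (v : ℝ) : 0 ≤ infDist v EE / 2 := div_nonneg infDist_nonneg zero_le_two
lemma gm_lip (v w : ℝ) : gm v ≤ gm w + |v - w| / 2 := by
  have := infDist_le_infDist_add_dist (s := EE) (x := v) (y := w)
  rw [Real.dist_eq] at this
  have h := abs_nonneg (v - w)
  unfold gm
  rcases min_cases 3 (infDist w EE / 2) with k | k <;> rw [k.1]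
  · linarith [min_le_left 3 (infDist v EE / 2)]
  · linarith [min_le_right 3 (infDist v EE / 2)]
lemma gm_c : Continuous gm := continuous_const.min ((continuous_infDist_pt _).div_const _)
lemma Wd1 (y : ℝ) : 1 ≤ Wd y := Real.one_le_exp (gm0 _)
lemma Wd0 : Wd 0 = 1 := by simp [Wd, gm_mem (v := 0) (.inl rfl)]
lemma Wd_le (y : ℝ) : Wd y ≤ 27 := by
  have h : Real.exp 3 = Real.exp 1 ^ 3 := by rw [← Real.exp_nat_mul]; norm_num
  have := pow_le_pow_left₀ (Real.exp_pos 1).le (Real.exp_one_lt_d9.le.trans (by norm_num : _ ≤ (3 : ℝ))) 3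
  exact (Real.exp_le_exp.2 (min_le_left _ _)).trans (by linarith)
lemma Wd_neg (y : ℝ) : Wd (-y) = Wd y := by simp [Wd]

lemma G_open (s : ℝ) : IsOpen (G s) := isOpen_iff_mem_nhds.2 fun z hz => by
  have h1 : ∀ᶠ w in 𝓝 z, |w.im| < s := (continuous_im.abs.tendsto z).eventually (gt_mem_nhds hz.1)
  by_cases k : z.im / s = 0
  · have := hz.2
    rw [k, Wd0] at this
    filter_upwards [h1, (continuous_re.abs.tendsto z).eventually (gt_mem_nhds this)] with w a b
      using ⟨a, b.trans_le (Wd1 _)⟩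
  · have c : ContinuousAt (fun w : ℂ => Wd (w.im / s)) z :=
      (Real.continuous_exp.comp gm_c).continuousAt.comp
        (ContinuousAt.log (f := fun w : ℂ => w.im / s) (by fun_prop) k)
    filter_upwards [h1, continuous_re.abs.continuousAt.eventually_lt c hz.2] with w a b using ⟨a, b⟩

lemma G_bdd (s : ℝ) : Bornology.IsBounded (G s) :=
  isBounded_iff_forall_norm_le.2 ⟨27 + s, fun z hz => (norm_le_abs_re_add_abs_im z).trans
    (add_le_add (hz.2.le.trans (Wd_le _)) hz.1.le)⟩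

lemma G_mul {s s' l : ℝ} (hs : 0 < s) (hs' : 0 < s') (l0 : 0 < l) (h1 : l ≤ s' / s) (h2 : l ≤ s / s')
    {z : ℂ} (hz : z ∈ G s) : l * z ∈ G s' := by
  have l1 : l ≤ 1 := by
    by_contra h
    have := mul_le_mul h1 h2 l0.le (by positivity)
    rw [show s' / s * (s / s') = 1 by field_simp] at this
    nlinarith
  refine ⟨?_, ?_⟩
  · rw [im_ofReal_mul, abs_mul, abs_of_pos l0]
    exact (mul_lt_mul_of_pos_left hz.1 l0).trans_le ((le_div_iff₀ hs).1 h1)
  rw [im_ofReal_mul, re_ofReal_mul, abs_mul, abs_of_pos l0]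
  refine (mul_lt_mul_of_pos_left hz.2 l0).trans_le ?_
  by_cases k : z.im = 0
  · simpa [k, Wd0] using l1
  have a1 := Real.log_le_log l0 h1
  have a2 := Real.log_le_log l0 h2
  have a3 := Real.log_nonpos l0.le l1
  rw [Real.log_div hs'.ne' hs.ne'] at a1
  rw [Real.log_div hs.ne' hs'.ne'] at a2
  have := gm_lip (Real.log (z.im / s)) (Real.log (l * z.im / s'))
  have b : |Real.log (z.im / s) - Real.log (l * z.im / s')| ≤ -2 * Real.log l := by
    rw [Real.log_div k hs.ne', Real.log_div (mul_ne_zero l0.ne' k) hs'.ne', Real.log_mul l0.ne' k]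
    exact abs_le.2 ⟨by linarith, by linarith⟩
  conv_lhs => rw [← Real.exp_log l0, Wd, ← Real.exp_add]
  exact Real.exp_le_exp.2 (by linarith)

lemma G_re {s x : ℝ} (hs : 0 < s) (hx : |x| < 1) : (x : ℂ) ∈ G s := ⟨by simpa, by simpa [Wd0]⟩
lemma G0 {s : ℝ} (hs : 0 < s) : 0 ∈ G s := by simpa using G_re hs (x := 0) (by simp)

lemma G_star {s : ℝ} (hs : 0 < s) : StarConvex ℝ 0 (G s) :=
  (starConvex_zero_iff).2 fun z hz t t0 t1 => by
    rcases t0.eq_or_lt with rfl | t0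
    · simpa using G0 hs
    · exact G_mul hs hs t0 (by rwa [div_self hs.ne']) (by rwa [div_self hs.ne']) hz

lemma G_conf (s : ℝ) : ∃ p : (ℂ → ℂ) × (ℂ → ℂ), 0 < s → Conf (G s) 0 p.1 p.2 := by
  by_cases hs : 0 < s
  · have := (G_star hs).contractibleSpace ⟨0, G0 hs⟩
    obtain ⟨ψ, φ, c⟩ := rmt_bounded (G_open s) (SimplyConnectedSpace.ofContractible _) (G_bdd s) (G0 hs)
    exact ⟨(ψ, φ), fun _ => c⟩
  · exact ⟨(0, 0), fun h => (hs h).elim⟩

noncomputable def ps (s : ℝ) : ℂ → ℂ := (G_conf s).choose.1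
noncomputable def ph (s : ℝ) : ℂ → ℂ := (G_conf s).choose.2
lemma cf {s : ℝ} (hs : 0 < s) : Conf (G s) 0 (ps s) (ph s) := (G_conf s).choose_spec hs
noncomputable def T (s : ℝ) : ℝ := ‖ps s (8 / 17 : ℝ)‖

lemma cmp {s s' l : ℝ} (hs : 0 < s) (hs' : 0 < s') (l0 : 0 < l) (h1 : l ≤ s' / s) (h2 : l ≤ s / s')
    {z : ℂ} (hz : z ∈ G s) : ‖ps s' (l * z)‖ ≤ ‖ps s z‖ :=
  schw (g := fun z => ps s' (l * z)) (cf hs) (G0 hs)
    ((cf hs').dψ.comp (by fun_prop) fun _ hw => G_mul hs hs' l0 h1 h2 hw)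
    (fun _ hw => (cf hs').mψ (G_mul hs hs' l0 h1 h2 hw)) (by simp [(cf hs').z]) hz

lemma a1 : |(8 / 17 : ℝ)| < 1 := by norm_num [abs_of_pos]

lemma T_c {s : ℝ} (hs : 0 < s) : ContinuousAt T s := by
  let l : ℝ → ℝ := fun u => min (u / s) (s / u)
  have cl : Tendsto l (𝓝 s) (𝓝 1) := by
    have := Tendsto.min (f := fun u : ℝ => u / s) (g := fun u => s / u) (tendsto_id.div_const s)
      (tendsto_const_nhds.div (tendsto_id (x := 𝓝 s)) hs.ne')
    simpa [l, hs.ne'] using this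
  have cl' : Tendsto (fun u => (l u : ℂ)) (𝓝 s) (𝓝 1) := by
    simpa using! (continuous_ofReal.tendsto 1).comp cl
  have ha := (G_open s).mem_nhds (G_re hs a1)
  have cp : Tendsto (fun z => ‖ps s z‖) (𝓝 ((8 / 17 : ℝ) : ℂ)) (𝓝 (T s)) :=
    ((cf hs).dψ.continuousOn.continuousAt ha).norm
  have t1 : Tendsto (fun u => (l u : ℂ) * (8 / 17 : ℝ)) (𝓝 s) (𝓝 ((8 / 17 : ℝ) : ℂ)) := by
    simpa only [one_mul] using cl'.mul_const ((8 / 17 : ℝ) : ℂ)
  have t2 : Tendsto (fun u => ((8 / 17 : ℝ) : ℂ) / (l u : ℂ)) (𝓝 s) (𝓝 ((8 / 17 : ℝ) : ℂ)) := by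
    simpa only [div_one] using! (tendsto_const_nhds (x := ((8 / 17 : ℝ) : ℂ))).div cl' one_ne_zero
  refine tendsto_of_tendsto_of_tendsto_of_le_of_le' (cp.comp t1) (cp.comp t2) ?_ ?_
  · filter_upwards [lt_mem_nhds hs] with u hu
    exact cmp hu hs (lt_min (by positivity) (by positivity)) (min_le_right _ _) (min_le_left _ _) (G_re hu a1)
  · filter_upwards [lt_mem_nhds hs, t2.eventually ha] with u hu h
    have l0 : 0 < l u := lt_min (by positivity) (by positivity)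
    have := cmp hs hu l0 (min_le_left _ _) (min_le_right _ _) h
    rwa [mul_div_cancel₀ _ (ofReal_ne_zero.2 l0.ne')] at this

lemma sc (c : ℝ) (hc : 0 < c) : Tendsto (fun n : ℕ => c * 4 ^ n) atTop atTop :=
  (tendsto_pow_atTop_atTop_of_one_lt (by norm_num)).const_mul_atTop hc

lemma good : ∀ᶠ n : ℕ in atTop, T (Real.exp (3 * 4 ^ n)) ≤ 2 / 7 := by
  let F : ℂ → ℂ := fun w => 2 * (7 / 8 * w) / (1 + (7 / 8 * w) ^ 2)
  have n1 : ∀ w ∈ closedBall (0 : ℂ) 1, 15 / 64 ≤ ‖1 + (7 / 8 * w) ^ 2‖ := fun w hw => by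
    have h := mem_closedBall_zero_iff.1 hw
    have := norm_sub_le (1 + (7 / 8 * w) ^ 2) ((7 / 8 * w) ^ 2)
    have h2 : ‖w‖ ^ 2 ≤ 1 := pow_le_one₀ (norm_nonneg _) h
    rw [add_sub_cancel_right, norm_one, norm_pow, norm_mul, show ‖(7 / 8 : ℂ)‖ = 7 / 8 by simp] at this
    linarith
  have n0 : ∀ w ∈ closedBall (0 : ℂ) 1, 1 + (7 / 8 * w) ^ 2 ≠ 0 := fun w hw k => by
    have := n1 w hw
    rw [k] at this
    norm_num at this
  have dF : DifferentiableOn ℂ F (closedBall 0 1) := DifferentiableOn.div (by fun_prop) (by fun_prop) n0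
  have b : ∀ w ∈ closedBall (0 : ℂ) 1, ‖F w‖ < 8 := fun w hw => by
    have h := mem_closedBall_zero_iff.1 hw
    rw [norm_div, div_lt_iff₀ (norm_pos_iff.2 (n0 w hw)), norm_mul, norm_mul]
    norm_num
    linarith [n1 w hw]
  have r : ∀ w ∈ closedBall (0 : ℂ) 1, (F w).im = 0 → |(F w).re| < 1 := fun w hw k => by
    have h := mem_closedBall_zero_iff.1 hw
    have h2 : w.re * w.re + w.im * w.im ≤ 1 := by
      rw [← normSq_apply, normSq_eq_norm_sq]; exact pow_le_one₀ (norm_nonneg _) h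
    have e : F w * (1 + (7 / 8 * w) ^ 2) = 2 * (7 / 8 * w) := div_mul_cancel₀ _ (n0 w hw)
    generalize F w = y at *
    have e1 := congrArg re e
    have e2 := congrArg im e
    simp [pow_two, k] at e1 e2
    by_cases j : w.im = 0
    · simp only [j] at e1 h2
      refine abs_lt.2 ⟨?_, ?_⟩ <;> by_contra! i <;>
        nlinarith [sq_nonneg (7 / 8 * w.re - 1), sq_nonneg (7 / 8 * w.re + 1), sq_nonneg w.re]
    · have e3 : y.re * (7 / 8 * w.re) = 1 := by
        apply mul_left_cancel₀ j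
        linarith
      have : y.re * (1 - 49 / 64 * (w.re * w.re + w.im * w.im)) = 0 := by
        linear_combination e1 - 2 * (7 / 8 * w.re) * e3
      rcases mul_eq_zero.1 this with i | i
      · simp [i] at e3
      · linarith
  obtain ⟨C, hC⟩ : ∃ C, ∀ w ∈ closedBall (0 : ℂ) 1, 1 ≤ |(F w).re| → |Real.log (F w).im| ≤ C := by
    have cK : IsCompact (closedBall (0 : ℂ) 1 ∩ F ⁻¹' {y | 1 ≤ |y.re|}) :=
      (isCompact_closedBall 0 1).of_isClosed_subset (dF.continuousOn.preimage_isClosed_of_isClosed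
        isClosed_closedBall (isClosed_le continuous_const continuous_re.abs)) inter_subset_left
    obtain ⟨C, hC⟩ := cK.exists_bound_of_continuousOn (f := fun w => Real.log (F w).im)
      ((continuous_im.comp_continuousOn (dF.continuousOn.mono inter_subset_left)).log
        fun w hw k => (r w hw.1 k).not_ge hw.2)
    exact ⟨C, fun w h1 h2 => hC w ⟨h1, h2⟩⟩
  filter_upwards [(sc 1 one_pos).eventually_ge_atTop (C + 6),
    (Real.tendsto_exp_atTop.comp (sc 3 three_pos)).eventually_ge_atTop 8] with n h1 h2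
  have hs := Real.exp_pos (3 * 4 ^ n)
  have m : MapsTo F (ball 0 1) (G (Real.exp (3 * 4 ^ n))) := fun w hw => by
    have hw' := ball_subset_closedBall hw
    refine ⟨((abs_im_le_norm _).trans_lt (b w hw')).trans_le h2, ?_⟩
    by_cases k : 1 ≤ |(F w).re|
    swap
    · exact (not_le.1 k).trans_le (Wd1 _)
    have j := abs_le.1 (hC w hw' k)
    have i : (F w).im ≠ 0 := fun i => (r w hw' i).not_ge k
    refine ((abs_re_le_norm _).trans_lt (b w hw')).trans_le ?_
    rw [Wd, Real.log_div i hs.ne', Real.log_exp, gm, min_eq_left]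
    · have h : Real.exp 3 = Real.exp 1 ^ 3 := by rw [← Real.exp_nat_mul]; norm_num
      have := pow_le_pow_left₀ (by norm_num) ((by norm_num : (2 : ℝ) ≤ _).trans Real.exp_one_gt_d9.le) 3
      linarith
    rw [le_div_iff₀ two_pos, le_infDist ⟨0, .inl rfl⟩]
    have p : (0 : ℝ) < 4 ^ n := by positivity
    rintro v (rfl | ⟨m, m1, m2⟩) <;> rw [Real.dist_eq, le_abs]
    · right; linarith
    rcases le_or_gt m n with h | h
    · have : (4 : ℝ) ^ m ≤ 4 ^ n := pow_le_pow_right₀ (by norm_num) h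
      right; linarith
    · have : (4 : ℝ) ^ (n + 1) ≤ 4 ^ m := pow_le_pow_right₀ (by norm_num) h
      rw [pow_succ] at this
      left; linarith
  have := norm_le_norm_of_mapsTo_ball (f := ps _ ∘ F) (z := 2 / 7)
    ((cf hs).dψ.comp (dF.mono ball_subset_closedBall) m)
    (((cf hs).mψ.comp m).mono_right ball_subset_closedBall) (by simp [F, (cf hs).z]) (by norm_num)
  rw [Function.comp, show F (2 / 7) = (8 / 17 : ℝ) by norm_num [F]] at this
  exact this.trans (by norm_num)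

lemma bad : ∃ᶠ n : ℕ in atTop, 3 / 10 ≤ T (Real.exp (3 / 2 * 4 ^ n)) := fun H => by
  let s : ℕ → ℝ := fun n => Real.exp (3 / 2 * 4 ^ n)
  have c := fun n => cf (s := s n) (Real.exp_pos _)
  have z := fun n => G0 (s := s n) (Real.exp_pos _)
  let l := Ultrafilter.of (atTop : Filter ℕ)
  have hl : (l : Filter ℕ) ≤ atTop := Ultrafilter.of_le _
  have b : ∀ n, ∀ w ∈ ball (0 : ℂ) 1, 1 ≤ ‖ph (s n) w + 28‖ := fun n w hw => by
    refine le_trans ?_ (re_le_norm _)
    have := abs_lt.1 (((c n).mφ hw).2.trans_le (Wd_le _))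
    simp
    linarith
  have b0 : ∀ n, ∀ w ∈ ball (0 : ℂ) 1, ph (s n) w + 28 ≠ 0 := fun n w hw =>
    norm_pos_iff.1 (one_pos.trans_le (b n w hw))
  have d : ∀ n, DifferentiableOn ℂ (fun w => (ph (s n) w + 28)⁻¹) (ball 0 1) := fun n =>
    ((c n).dφ.add_const _).inv (b0 n)
  obtain ⟨g, hg⟩ := montel l isOpen_ball (M := 1) d fun n w hw => by
    rw [norm_inv]; exact inv_le_one_of_one_le₀ (b n w hw)
  have dg := hg.differentiableOn (.of_forall d) isOpen_ball
  have o : (0 : ℂ) ∈ ball (0 : ℂ) 1 := mem_ball_self one_pos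
  have g0 : g 0 = 28⁻¹ := tendsto_nhds_unique (hg.tendsto_at o) (by
    simp [phi0 (c _) (z _)])
  have gn : ∀ w ∈ ball (0 : ℂ) 1, g w ≠ 0 := fun w hw k => by
    have := hurwitz isOpen_ball (convex_ball _ _).isPreconnected d
      (fun n w hw => inv_ne_zero (b0 n w hw)) hg hw k o
    simp [g0] at this
  obtain ⟨τ, h1, h2⟩ := (isCompact_closedBall (0 : ℂ) (3 / 10)).ultrafilter_le_nhds
    (l.map fun n => ps (s n) (8 / 17 : ℝ)) (by
      rw [le_principal_iff]
      exact hl (H.mono fun n h => mem_closedBall_zero_iff.2 (not_le.1 h).le))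
  have h3 : τ ∈ ball (0 : ℂ) 1 := closedBall_subset_ball (by norm_num) h1
  have am := fun n => G_re (s := s n) (Real.exp_pos _) a1
  have g1 : g τ = ((8 / 17 : ℝ) + 28 : ℂ)⁻¹ := tendsto_nhds_unique (hg.tendsto_comp
    (dg.continuousOn τ h3) h3 (tendsto_nhdsWithin_iff.2 ⟨h2, .of_forall fun n => (c n).mψ (am n)⟩))
    (by simp only [(c _).l _ (am _)]; exact tendsto_const_nhds)
  let f : ℂ → ℂ := fun w => (g w)⁻¹ - 28
  have df : DifferentiableOn ℂ f (ball 0 1) := (dg.inv gn).sub_const _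
  have f0 : f 0 = 0 := by simp [f, g0]
  have f1 : f τ = 8 / 17 := by simp [f, g1]
  have k : ∀ w ∈ ball (0 : ℂ) 1, (f w).im ≠ 0 → (f w).re ≤ 1 := fun w hw i => by
    have t : Tendsto (fun n => ph (s n) w) l (𝓝 (f w)) := by
      simpa using ((hg.tendsto_at hw).inv₀ (gn w hw)).sub_const 28
    have t2 := (continuous_im.tendsto _).comp t
    refine le_of_tendsto ((continuous_re.tendsto _).comp t) ?_
    filter_upwards [t2.eventually_ne i, (t2.log i).abs.eventually (gt_mem_nhds (lt_add_one _)),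
      hl ((sc (1 / 2) (by norm_num)).eventually_ge_atTop (|Real.log (f w).im| + 1))] with n j1 j2 j3
    have j := abs_lt.1 j2
    have := ((c n).mφ hw).2
    simp only [Function.comp] at j j1
    rw [Wd, Real.log_div j1 (Real.exp_pos _).ne', Real.log_exp, gm_mem, Real.exp_zero] at this
    · exact (le_abs_self _).trans this.le
    · exact .inr ⟨n, by linarith, by linarith⟩
  have op := ((df.analyticOnNhd isOpen_ball).is_constant_or_isOpen
    (convex_ball _ _).isPreconnected).resolve_left (by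
      rintro ⟨u, hu⟩
      have := (hu _ o).trans (hu _ h3).symm
      rw [f0, f1] at this
      norm_num at this) _ subset_rfl isOpen_ball
  have k2 : ∀ w ∈ ball (0 : ℂ) 1, (f w).re < 1 := fun w hw => by
    by_contra! i
    have t : Tendsto (fun t : ℝ => f w + t * (1 + I)) (𝓝[>] 0) (𝓝 (f w)) := by
      have : Continuous fun t : ℝ => f w + t * (1 + I) := by fun_prop
      simpa using (this.tendsto 0).mono_left nhdsWithin_le_nhds
    have e : ∀ᶠ t : ℝ in 𝓝[>] 0, t ≠ -(f w).im := by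
      by_cases j : (f w).im = 0
      · filter_upwards [self_mem_nhdsWithin] with t ht using by simpa [j] using ht.ne'
      · exact nhdsWithin_le_nhds (eventually_ne_nhds (by simpa [eq_comm] using j))
    obtain ⟨u, ⟨⟨v, hv, ev⟩, j1⟩, j2⟩ := (((t.eventually (op.mem_nhds ⟨w, hw, rfl⟩)).and e).and
      self_mem_nhdsWithin).exists
    have := k v hv (by rw [ev]; simp; intro j; exact j1 (by linarith))
    rw [ev] at this
    simp at this
    linarith [show 0 < u from j2]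
  have k3 : ∀ w ∈ ball (0 : ℂ) 1, 2 - f w ≠ 0 := fun w hw i => by
    have := k2 w hw
    rw [← sub_eq_zero.1 i] at this
    norm_num at this
  have := norm_le_norm_of_mapsTo_ball (f := fun w => f w / (2 - f w)) (z := τ)
    (df.div (df.const_sub 2) k3) (fun w hw => by
      rw [mem_closedBall_zero_iff, norm_div, div_le_one (norm_pos_iff.2 (k3 w hw))]
      refine le_of_sq_le_sq ?_ (norm_nonneg _) |> fun k => k
      rw [Complex.sq_norm, Complex.sq_norm, normSq_apply, normSq_apply]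
      simp
      linarith [k2 w hw]) (by simp [f0]) (mem_ball_zero_iff.1 h3)
  have h4 := mem_closedBall_zero_iff.1 h1
  simp only [f1] at this
  norm_num at this
  linarith

lemma hit (N : ℝ) : ∃ s > 0, N ≤ s ∧ T s = 3 / 10 := by
  obtain ⟨m, h1, h2⟩ := (good.and ((Real.tendsto_exp_atTop.comp
    (sc 3 three_pos)).eventually_ge_atTop (max N 1))).exists
  obtain ⟨n, h3, h4⟩ := (bad.and_eventually ((Real.tendsto_exp_atTop.comp
    (sc (3 / 2) (by norm_num))).eventually_ge_atTop (max N 1))).exists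
  obtain ⟨s, hs, e⟩ := isPreconnected_Ici.intermediate_value (f := T) h2 h4
    (fun s hs => (T_c (one_pos.trans_le ((le_max_right _ _).trans hs))).continuousWithinAt)
    ⟨h1.trans (by norm_num), h3⟩
  exact ⟨s, one_pos.trans_le ((le_max_right _ _).trans hs), (le_max_left _ _).trans hs, e⟩

lemma Sg_G {s : ℝ} (hs : 0 < s) : Sg (8 / 17) ⊆ G s := by
  rw [Sg_eq]
  rintro _ ⟨x, hx, rfl⟩
  exact G_re hs ((abs_le.2 hx).trans_lt (by norm_num))

lemma fl_mem {s : ℝ} (hs : 0 < s) (z : ℂ) :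
    z ∈ flat s⁻¹ '' (G 1 \ Sg (8 / 17)) ↔ s * z ∈ G s \ Sg (8 / 17) := by
  have k : ∀ w, s * flat s⁻¹ w ∈ G s \ Sg (8 / 17) ↔ w ∈ G 1 \ Sg (8 / 17) := fun w => by
    simp [G, Sg, flat, hs.ne', abs_mul, abs_of_pos hs, hs]
  constructor
  · rintro ⟨w, hw, rfl⟩
    exact (k w).2 hw
  · intro h
    have e : flat s⁻¹ ⟨s * z.re, z.im⟩ = z := Complex.ext (by simp [flat, hs.ne']) rfl
    exact ⟨_, (k _).1 (by rwa [e]), e⟩

theorem main {ε₀ : ℝ} (h0 : 0 < ε₀) : ∃ ε ∈ Ioo 0 ε₀, ∃ h A,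
    Hom (ball 0 1 \ Sg (3 / 10)) (flat ε '' (G 1 \ Sg (8 / 17))) h ∧ W12 (ball 0 1 \ Sg (3 / 10)) h A ∧
    En (ball 0 1 \ Sg (3 / 10)) A = EH (ball 0 1 \ Sg (3 / 10)) (flat ε '' (G 1 \ Sg (8 / 17))) := by
  obtain ⟨s, hs, h1, h2⟩ := hit (ε₀⁻¹ + 1)
  have s0 : (s : ℂ) ≠ 0 := ofReal_ne_zero.2 hs.ne'
  obtain ⟨h, ⟨g, m1, m2, hi, c1, c2⟩, hd⟩ := seg (G_open s) (fun z hz => by
    simpa [G, neg_div, Wd_neg] using hz) (fun z hz => by simpa [G, neg_div, Wd_neg] using hz)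
    (by norm_num) (Sg_G hs) (cf hs)
  rw [show ‖ps s (8 / 17 : ℝ)‖ = 3 / 10 from h2] at *
  have e : flat s⁻¹ '' (G 1 \ Sg (8 / 17)) = (fun z : ℂ => s * z) ⁻¹' (G s \ Sg (8 / 17)) :=
    Set.ext (fl_mem hs)
  have hh : Hom (ball 0 1 \ Sg (3 / 10)) (flat s⁻¹ '' (G 1 \ Sg (8 / 17))) fun z => h z / s := by
    rw [e]
    refine ⟨fun z => g (s * z), fun z hz => ?_, fun z hz => m2 hz, ⟨fun z hz => ?_, fun z hz => ?_⟩,
      c1.div_const _, c2.comp (by fun_prop) fun z hz => hz⟩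
    · simpa only [mem_preimage, mul_div_cancel₀ _ s0] using m1 hz
    · simpa only [mul_div_cancel₀ _ s0] using hi.1 hz
    · simp only [hi.2 hz, mul_div_cancel_left₀ _ s0]
  refine ⟨s⁻¹, ⟨inv_pos.2 hs, inv_lt_of_inv_lt₀ h0 (by linarith)⟩, _, _, hh, conf_min
    (isOpen_ball.sdiff (Sg_cpt _).isClosed) ?_ (isBounded_ball.subset sdiff_subset) ?_ hh
    ((hd.mono sdiff_subset).div_const _)⟩
  · rw [e]
    exact ((G_open s).sdiff (Sg_cpt _).isClosed).preimage (by fun_prop)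
  · obtain ⟨R, hR⟩ := (G_bdd s).exists_norm_le
    refine isBounded_iff_forall_norm_le.2 ⟨R / s, fun z hz => ?_⟩
    have := hR _ ((fl_mem hs z).1 hz).1
    rw [norm_mul, norm_real, Real.norm_of_nonneg hs.le] at this
    rwa [le_div_iff₀' hs]

lemma k1 : KConn 2 (ball 0 1 \ Sg (3 / 10)) ∧ NoPt (ball 0 1 \ Sg (3 / 10)) :=
  kc (c := 1 / 2) isOpen_ball (mem_ball_self one_pos) ((convex_ball _ _).starConvex (mem_ball_self one_pos))
    (by norm_num) (by
      rw [Sg_eq]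
      rintro _ ⟨x, hx, rfl⟩
      simpa using (abs_le.2 hx).trans_lt (by norm_num)) ⟨by norm_num, by norm_num [Sg, abs_of_pos]⟩

lemma k2 : KConn 2 (G 1 \ Sg (8 / 17)) ∧ NoPt (G 1 \ Sg (8 / 17)) :=
  kc (c := 1 / 2) (G_open 1) (G0 one_pos) (G_star one_pos) (by norm_num) (Sg_G one_pos)
    ⟨G_re one_pos (by norm_num [abs_of_pos]), by norm_num [Sg, abs_of_pos]⟩

end Pool.Agent.H.MP_a2a261_an
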